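import Mathlib

set_option autoImplicit false

/-!
# Conjugacy geodesics in virtual RAAGs twisted by graph automorphisms

The language of conjugacy geodesics of `A_Γ ⋊ ⟨t⟩` is regular for every graph automorphism.
The word problem is handled by an action on pilings.
-/

namespace Pool.Agent.Results.MP_7325c9_al.Twisted

variable {V : Type}

/-- The relators of `A_φ`: the generator `some v` is the vertex `v` and `none` is `t`. -/
def rels (Γ : SimpleGraph V) (φ : Equiv.Perm V) : Set (FreeGroup (Option V)) :=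
  {r | ∃ u v, Γ.Adj u v ∧ r = FreeGroup.of (some u) * FreeGroup.of (some v) *
    (FreeGroup.of (some v) * FreeGroup.of (some u))⁻¹} ∪
  {r | r = FreeGroup.of none ^ orderOf φ} ∪
  {r | ∃ v, r = (FreeGroup.of none)⁻¹ * FreeGroup.of (some v) * FreeGroup.of none *
    (FreeGroup.of (some (φ v)))⁻¹}

/-- The virtual RAAG `A_φ`. -/
abbrev A (Γ : SimpleGraph V) (φ : Equiv.Perm V) : Type := PresentedGroup (rels Γ φ)

/-- The element represented by a word; the letters are `(some v, true) = v`,
`(some v, false) = v⁻¹`, `(none, true) = t` and `(none, false) = t⁻¹`. -/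
def ev (Γ : SimpleGraph V) (φ : Equiv.Perm V) (w : List (Option V × Bool)) : A Γ φ :=
  PresentedGroup.mk (rels Γ φ) (FreeGroup.mk w)

/-- The word length. -/
noncomputable def len (Γ : SimpleGraph V) (φ : Equiv.Perm V) (g : A Γ φ) : ℕ :=
  sInf {n | ∃ w, ev Γ φ w = g ∧ w.length = n}

/-- The language of conjugacy geodesics. -/
def ConjGeo (Γ : SimpleGraph V) (φ : Equiv.Perm V) : Language (Option V × Bool) :=
  {w : List (Option V × Bool) |
    w.length = sInf {n | ∃ h, IsConj (ev Γ φ w) h ∧ len Γ φ h = n}}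

section piling

variable [DecidableEq V] (Γ : SimpleGraph V) [DecidableRel Γ.Adj]

/-- a piling: a stack of beads for every vertex -/
abbrev Pil (V : Type) : Type := V → List (Option Bool)

/-- put a bead -/
def push (x : V × Bool) (π : Pil V) : Pil V := fun w =>
  if Γ.Adj x.1 w then π w else (if w = x.1 then some x.2 else none) :: π w

/-- remove a bead -/
def pop (v : V) (π : Pil V) : Pil V := fun w => if Γ.Adj v w then π w else (π w).tail

/-- the action of a letter -/
def T (x : V × Bool) (π : Pil V) : Pil V :=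
  if (π x.1).head? = some (some (!x.2)) then pop Γ x.1 π else push Γ x π

/-- reduced pilings -/
inductive Red : Pil V → Prop
  | nil : Red (fun _ => [])
  | push (x : V × Bool) (π : Pil V) : Red π → (π x.1).head? ≠ some (some (!x.2)) →
      Red (push Γ x π)

lemma push_self (x : V × Bool) (π : Pil V) : push Γ x π x.1 = some x.2 :: π x.1 := by
  simp [push]

lemma push_adj {x : V × Bool} {w : V} (h : Γ.Adj x.1 w) (π : Pil V) : push Γ x π w = π w := by
  simp [push, h]

omit [DecidableEq V] in
lemma pop_adj {v w : V} (h : Γ.Adj v w) (π : Pil V) : pop Γ v π w = π w := by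
  simp [pop, h]

lemma T_adj {x : V × Bool} {w : V} (h : Γ.Adj x.1 w) (π : Pil V) : T Γ x π w = π w := by
  unfold T
  split_ifs
  · exact pop_adj Γ h π
  · exact push_adj Γ h π

lemma pop_push (x : V × Bool) (π : Pil V) : pop Γ x.1 (push Γ x π) = π := by
  funext w
  by_cases h : Γ.Adj x.1 w <;> simp [pop, push, h]

lemma push_comm {x y : V × Bool} (h : Γ.Adj x.1 y.1) (π : Pil V) :
    push Γ x (push Γ y π) = push Γ y (push Γ x π) := by
  have hne : x.1 ≠ y.1 := h.ne
  funext w
  by_cases h1 : Γ.Adj x.1 w <;> by_cases h2 : Γ.Adj y.1 w <;> simp [push, h1, h2]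
  by_cases h3 : w = x.1
  · subst h3; exact absurd h.symm h2
  · by_cases h4 : w = y.1
    · subst h4; exact absurd h h1
    · simp [h3, h4]

lemma exchange {π : Pil V} (hπ : Red Γ π) : ∀ {v : V} {e : Bool},
    (π v).head? = some (some e) →
    ∃ π', Red Γ π' ∧ (π' v).head? ≠ some (some (!e)) ∧ π = push Γ (v, e) π' := by
  induction hπ with
  | nil => intro v e h; simp at h
  | push x π hπ hx ih =>
    intro v e h
    by_cases h1 : v = x.1
    · subst h1
      rw [push_self] at h
      have h2 : x.2 = e := by simpa using h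
      subst h2
      exact ⟨π, hπ, hx, rfl⟩
    · by_cases h2 : Γ.Adj x.1 v
      · rw [push_adj Γ h2] at h
        obtain ⟨π', hπ', hc, rfl⟩ := ih h
        have h3 : push Γ (v, e) π' x.1 = π' x.1 := push_adj Γ (x := (v, e)) h2.symm π'
        rw [h3] at hx
        refine ⟨push Γ x π', Red.push x π' hπ' hx, ?_, ?_⟩
        · rw [push_adj Γ h2]; exact hc
        · exact push_comm Γ (x := x) (y := (v, e)) h2 π'
      · simp [push, h1, h2] at h

lemma T_red (x : V × Bool) {π : Pil V} (hπ : Red Γ π) : Red Γ (T Γ x π) := by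
  unfold T
  split_ifs with h
  · obtain ⟨π', hπ', _, rfl⟩ := exchange Γ hπ h
    have := pop_push Γ (x.1, !x.2) π'
    rw [this]; exact hπ'
  · exact Red.push x π hπ h

lemma T_inv (x : V × Bool) {π : Pil V} (hπ : Red Γ π) : T Γ (x.1, !x.2) (T Γ x π) = π := by
  by_cases h : (π x.1).head? = some (some (!x.2))
  · obtain ⟨π', hπ', hc, rfl⟩ := exchange Γ hπ h
    have e1 : T Γ x (push Γ (x.1, !x.2) π') = π' := by
      unfold T
      rw [if_pos h]
      exact pop_push Γ (x.1, !x.2) π'
    rw [e1]
    unfold T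
    rw [if_neg]
    simpa using hc
  · have e1 : T Γ x π = push Γ x π := by
      unfold T; rw [if_neg h]
    rw [e1]
    unfold T
    rw [if_pos]
    · exact pop_push Γ x π
    · show (push Γ x π x.1).head? = some (some (!!x.2))
      rw [push_self]; simp

lemma T_comm {x y : V × Bool} (h : Γ.Adj x.1 y.1) {π : Pil V} (hπ : Red Γ π) :
    T Γ x (T Γ y π) = T Γ y (T Γ x π) := by
  have hx : (T Γ y π) x.1 = π x.1 := T_adj Γ h.symm π
  have hy : (T Γ x π) y.1 = π y.1 := T_adj Γ h π
  by_cases h1 : (π x.1).head? = some (some (!x.2))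
  · obtain ⟨π', hπ', hc, rfl⟩ := exchange Γ hπ h1
    have e1 : T Γ x (push Γ (x.1, !x.2) π') = π' := by
      unfold T; rw [if_pos h1]; exact pop_push Γ (x.1, !x.2) π'
    have hy' : (push Γ (x.1, !x.2) π') y.1 = π' y.1 := push_adj Γ (x := (x.1, !x.2)) h π'
    rw [e1]
    by_cases h2 : (π' y.1).head? = some (some (!y.2))
    · obtain ⟨π'', hπ'', hc', rfl⟩ := exchange Γ hπ' h2
      have e2 : T Γ y (push Γ (y.1, !y.2) π'') = π'' := by
        unfold T; rw [if_pos h2]; exact pop_push Γ (y.1, !y.2) π''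
      have e3 : T Γ y (push Γ (x.1, !x.2) (push Γ (y.1, !y.2) π'')) =
          push Γ (x.1, !x.2) π'' := by
        rw [push_comm Γ (x := (x.1, !x.2)) (y := (y.1, !y.2)) h]
        unfold T
        rw [if_pos]
        · exact pop_push Γ (y.1, !y.2) _
        · rw [show (push Γ (y.1, !y.2) (push Γ (x.1, !x.2) π'')) y.1 =
            some (!y.2) :: (push Γ (x.1, !x.2) π'') y.1 from push_self Γ (y.1, !y.2) _]
          rfl
      rw [e2, e3]
      unfold T
      rw [if_pos]
      · exact pop_push Γ (x.1, !x.2) _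
      · rw [show (push Γ (x.1, !x.2) π'') x.1 = some (!x.2) :: π'' x.1 from
          push_self Γ (x.1, !x.2) _]
        rfl
    · have e2 : T Γ y (push Γ (x.1, !x.2) π') = push Γ y (push Γ (x.1, !x.2) π') := by
        unfold T; rw [if_neg]; rw [hy']; exact h2
      have e3 : T Γ y π' = push Γ y π' := by
        unfold T; rw [if_neg h2]
      rw [e2, e3, push_comm Γ (x := y) (y := (x.1, !x.2)) h.symm]
      unfold T
      rw [if_pos]
      · exact pop_push Γ (x.1, !x.2) _
      · rw [show (push Γ (x.1, !x.2) (push Γ y π')) x.1 = some (!x.2) :: (push Γ y π') x.1 from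
          push_self Γ (x.1, !x.2) _]
        rfl
  · have e1 : T Γ x π = push Γ x π := by unfold T; rw [if_neg h1]
    have e4 : T Γ x (T Γ y π) = push Γ x (T Γ y π) := by
      unfold T at hx ⊢
      rw [if_neg]; rw [hx]; exact h1
    rw [e4, e1]
    by_cases h2 : (π y.1).head? = some (some (!y.2))
    · obtain ⟨π', hπ', hc, rfl⟩ := exchange Γ hπ h2
      have e2 : T Γ y (push Γ (y.1, !y.2) π') = π' := by
        unfold T; rw [if_pos h2]; exact pop_push Γ (y.1, !y.2) π'
      rw [e2, push_comm Γ (x := x) (y := (y.1, !y.2)) h]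
      unfold T
      rw [if_pos]
      · exact (pop_push Γ (y.1, !y.2) _).symm
      · rw [show (push Γ (y.1, !y.2) (push Γ x π')) y.1 = some (!y.2) :: (push Γ x π') y.1 from
          push_self Γ (y.1, !y.2) _]
        rfl
    · have e2 : T Γ y π = push Γ y π := by unfold T; rw [if_neg h2]
      have e3 : T Γ y (push Γ x π) = push Γ y (push Γ x π) := by
        unfold T; rw [if_neg]; rw [push_adj Γ h]; exact h2
      rw [e2, e3, push_comm Γ h]

variable [Fintype V]

/-- the number of non-zero beads -/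
def beads (π : Pil V) : ℕ := ∑ v, (π v).countP Option.isSome

lemma beads_push (x : V × Bool) (π : Pil V) : beads (push Γ x π) = beads π + 1 := by
  unfold beads
  have h : ∀ v, (push Γ x π v).countP Option.isSome =
      (π v).countP Option.isSome + if v = x.1 then 1 else 0 := by
    intro v
    by_cases h1 : v = x.1
    · subst h1; simp [push]
    · by_cases h2 : Γ.Adj x.1 v
      · simp [push, h1, h2]
      · simp [push, h1, h2]
  rw [Finset.sum_congr rfl fun v _ => h v, Finset.sum_add_distrib, Finset.sum_ite_eq']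
  simp

lemma beads_T (x : V × Bool) (π : Pil V) : beads (T Γ x π) ≤ beads π + 1 := by
  unfold T
  split_ifs
  · refine le_trans ?_ (Nat.le_succ _)
    unfold beads
    apply Finset.sum_le_sum
    intro v _
    unfold pop
    split_ifs
    · exact le_rfl
    · exact (List.tail_sublist _).countP_le
  · rw [beads_push]

end piling

section action

variable [DecidableEq V] (Γ : SimpleGraph V) [DecidableRel Γ.Adj] (φ : Equiv.Perm V)

/-- the set of reduced pilings -/
abbrev Om : Type := {π : Pil V // Red Γ π}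

/-- the permutation given by a vertex -/
def Tperm (v : V) : Equiv.Perm (Om Γ) where
  toFun π := ⟨T Γ (v, true) π.1, T_red Γ _ π.2⟩
  invFun π := ⟨T Γ (v, false) π.1, T_red Γ _ π.2⟩
  left_inv π := Subtype.ext (T_inv Γ (v, true) π.2)
  right_inv π := Subtype.ext (T_inv Γ (v, false) π.2)

variable {Γ φ}

lemma relabel_push (hφ : ∀ u v, Γ.Adj (φ u) (φ v) ↔ Γ.Adj u v) (x : V × Bool) (π : Pil V) :
    (fun w => push Γ x π (φ.symm w)) = push Γ (φ x.1, x.2) fun w => π (φ.symm w) := by
  funext w
  have h1 : Γ.Adj x.1 (φ.symm w) ↔ Γ.Adj (φ x.1) w := by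
    rw [← hφ, Equiv.apply_symm_apply]
  have h2 : φ.symm w = x.1 ↔ w = φ x.1 := Equiv.symm_apply_eq φ
  simp only [push, h1, h2]

lemma relabel_red (hφ : ∀ u v, Γ.Adj (φ u) (φ v) ↔ Γ.Adj u v) {π : Pil V} (hπ : Red Γ π) :
    Red Γ fun w => π (φ.symm w) := by
  induction hπ with
  | nil => exact Red.nil
  | push x π hπ hx ih =>
    rw [relabel_push hφ]
    refine Red.push _ _ ih ?_
    simpa using hx

lemma relabel_T (hφ : ∀ u v, Γ.Adj (φ u) (φ v) ↔ Γ.Adj u v) (x : V × Bool) (π : Pil V) :
    (fun w => T Γ x π (φ.symm w)) = T Γ (φ x.1, x.2) fun w => π (φ.symm w) := by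
  unfold T
  simp only [Equiv.symm_apply_apply]
  split_ifs
  · funext w
    have h1 : Γ.Adj x.1 (φ.symm w) ↔ Γ.Adj (φ x.1) w := by
      rw [← hφ, Equiv.apply_symm_apply]
    simp only [pop, h1]
  · exact relabel_push hφ x π

/-- the permutation given by `t` -/
def tperm (hφ : ∀ u v, Γ.Adj (φ u) (φ v) ↔ Γ.Adj u v) : Equiv.Perm (Om Γ) where
  toFun π := ⟨fun w => π.1 (φ.symm w), relabel_red hφ π.2⟩
  invFun π := ⟨fun w => π.1 (φ w), by
    have hφ' : ∀ u v, Γ.Adj (φ.symm u) (φ.symm v) ↔ Γ.Adj u v := by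
      intro u v
      rw [← hφ, Equiv.apply_symm_apply, Equiv.apply_symm_apply]
    exact relabel_red (φ := φ.symm) hφ' π.2⟩
  left_inv π := by
    apply Subtype.ext
    funext w
    simp
  right_inv π := by
    apply Subtype.ext
    funext w
    simp

lemma tperm_pow (hφ : ∀ u v, Γ.Adj (φ u) (φ v) ↔ Γ.Adj u v) (k : ℕ) (π : Om Γ) :
    ((tperm hφ ^ k) π).1 = fun w => π.1 ((φ ^ k).symm w) := by
  induction k generalizing π with
  | zero => rfl
  | succ k ih =>
    rw [pow_succ, Equiv.Perm.mul_apply, ih]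
    funext w
    show π.1 (φ.symm ((φ ^ k).symm w)) = _
    rw [pow_succ]
    rfl

/-- The right action of `A_φ` on reduced pilings. -/
def rho (hφ : ∀ u v, Γ.Adj (φ u) (φ v) ↔ Γ.Adj u v) :
    A Γ φ →* (Equiv.Perm (Om Γ))ᵐᵒᵖ :=
  PresentedGroup.toGroup (f := fun x : Option V =>
    match x with
    | some v => MulOpposite.op (Tperm Γ v)
    | none => MulOpposite.op (tperm hφ)) (by
      rintro r ((⟨u, v, h, rfl⟩ | rfl) | ⟨v, rfl⟩)
      · simp only [map_mul, map_inv, FreeGroup.lift_apply_of]
        rw [mul_inv_eq_one, ← MulOpposite.op_mul, ← MulOpposite.op_mul]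
        congr 1
        ext π : 1
        apply Subtype.ext
        exact T_comm Γ (x := (v, true)) (y := (u, true)) h.symm π.2
      · simp only [map_pow, FreeGroup.lift_apply_of]
        rw [← MulOpposite.op_pow, ← MulOpposite.op_one]
        congr 1
        ext π : 1
        apply Subtype.ext
        rw [tperm_pow, pow_orderOf_eq_one]
        rfl
      · simp only [map_mul, map_inv, FreeGroup.lift_apply_of]
        rw [mul_inv_eq_one, ← MulOpposite.op_inv, ← MulOpposite.op_mul, ← MulOpposite.op_mul]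
        congr 1
        rw [← mul_assoc, mul_inv_eq_iff_eq_mul]
        ext π : 1
        apply Subtype.ext
        exact relabel_T hφ (v, true) π.1)

/-- the action of a group element -/
def act (hφ : ∀ u v, Γ.Adj (φ u) (φ v) ↔ Γ.Adj u v) (g : A Γ φ) (π : Om Γ) : Om Γ :=
  (rho hφ g).unop π

lemma act_mul (hφ : ∀ u v, Γ.Adj (φ u) (φ v) ↔ Γ.Adj u v) (g h : A Γ φ) (π : Om Γ) :
    act hφ (g * h) π = act hφ h (act hφ g π) := by
  simp [act]

lemma act_one (hφ : ∀ u v, Γ.Adj (φ u) (φ v) ↔ Γ.Adj u v) (π : Om Γ) :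
    act hφ 1 π = π := by
  simp [act]

end action

section words

variable (Γ : SimpleGraph V) (φ : Equiv.Perm V)

lemma ev_append (w w' : List (Option V × Bool)) : ev Γ φ (w ++ w') = ev Γ φ w * ev Γ φ w' := by
  unfold ev
  rw [← map_mul, FreeGroup.mul_mk]

lemma ev_nil : ev Γ φ [] = 1 := by
  unfold ev
  rw [← FreeGroup.one_eq_mk, map_one]

/-- word in the letters of the RAAG -/
def evX (l : List (V × Bool)) : A Γ φ := ev Γ φ (l.map fun x => (some x.1, x.2))

/-- a letter -/
def gx (x : V × Bool) : A Γ φ := evX Γ φ [x]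

/-- the generator `t` -/
def tt : A Γ φ := ev Γ φ [(none, true)]

lemma evX_append (l l' : List (V × Bool)) : evX Γ φ (l ++ l') = evX Γ φ l * evX Γ φ l' := by
  unfold evX
  rw [List.map_append, ev_append]

lemma evX_nil : evX Γ φ [] = 1 := ev_nil Γ φ

lemma evX_cons (x : V × Bool) (l : List (V × Bool)) :
    evX Γ φ (x :: l) = gx Γ φ x * evX Γ φ l := by
  rw [← List.singleton_append, evX_append]; rfl

lemma gx_true (v : V) : gx Γ φ (v, true) = PresentedGroup.of (some v) := rfl

lemma gx_inv (x : V × Bool) : gx Γ φ (x.1, !x.2) = (gx Γ φ x)⁻¹ := by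
  rw [eq_inv_iff_mul_eq_one, ← evX_nil Γ φ]
  unfold gx
  rw [← evX_append]
  unfold evX ev
  congr 1
  show FreeGroup.mk [(some x.1, !x.2), (some x.1, x.2)] = FreeGroup.mk []
  have := FreeGroup.Red.Step.not (L₁ := []) (L₂ := []) (x := some x.1) (b := !x.2)
  rw [Bool.not_not] at this
  exact Quot.sound this

lemma tt_eq : tt Γ φ = PresentedGroup.of none := rfl

lemma tt_inv : ev Γ φ [(none, false)] = (tt Γ φ)⁻¹ := by
  rw [eq_inv_iff_mul_eq_one, ← ev_nil Γ φ]
  unfold tt
  rw [← ev_append]
  unfold ev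
  congr 1
  exact Quot.sound (FreeGroup.Red.Step.not (L₁ := []) (L₂ := []) (x := none) (b := false))

lemma rel_adj {u v : V} (h : Γ.Adj u v) : Commute (gx Γ φ (u, true)) (gx Γ φ (v, true)) := by
  have h1 : (FreeGroup.of (some u) * FreeGroup.of (some v) *
    (FreeGroup.of (some v) * FreeGroup.of (some u))⁻¹ : FreeGroup (Option V)) ∈ rels Γ φ :=
    Or.inl (Or.inl ⟨u, v, h, rfl⟩)
  have h2 := PresentedGroup.one_of_mem h1
  rw [map_mul, map_inv, mul_inv_eq_one, map_mul, map_mul] at h2
  exact h2

lemma rel_adj' {x y : V × Bool} (h : Γ.Adj x.1 y.1) : Commute (gx Γ φ x) (gx Γ φ y) := by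
  have key : ∀ x : V × Bool, gx Γ φ x = gx Γ φ (x.1, true) ∨
      gx Γ φ x = (gx Γ φ (x.1, true))⁻¹ := by
    rintro ⟨v, e⟩
    cases e
    · right; exact gx_inv Γ φ (v, true)
    · left; rfl
  have h1 := rel_adj Γ φ h
  rcases key x with hx | hx <;> rcases key y with hy | hy <;> rw [hx, hy]
  · exact h1
  · exact h1.inv_right
  · exact h1.inv_left
  · exact h1.inv_inv

lemma rel_t : tt Γ φ ^ orderOf φ = 1 := by
  have h1 : (FreeGroup.of none ^ orderOf φ : FreeGroup (Option V)) ∈ rels Γ φ :=
    Or.inl (Or.inr rfl)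
  have h2 := PresentedGroup.one_of_mem h1
  rw [map_pow] at h2
  exact h2

lemma rel_conj (v : V) : (tt Γ φ)⁻¹ * gx Γ φ (v, true) * tt Γ φ = gx Γ φ (φ v, true) := by
  have h1 : ((FreeGroup.of none)⁻¹ * FreeGroup.of (some v) * FreeGroup.of none *
    (FreeGroup.of (some (φ v)))⁻¹ : FreeGroup (Option V)) ∈ rels Γ φ := Or.inr ⟨v, rfl⟩
  have h2 := PresentedGroup.one_of_mem h1
  rw [map_mul, map_inv, mul_inv_eq_one, map_mul, map_mul, map_inv] at h2
  exact h2

lemma rel_conj' (x : V × Bool) : (tt Γ φ)⁻¹ * gx Γ φ x * tt Γ φ = gx Γ φ (φ x.1, x.2) := by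
  rcases x with ⟨v, e⟩
  cases e
  · have h1 : gx Γ φ (v, false) = (gx Γ φ (v, true))⁻¹ := gx_inv Γ φ (v, true)
    have h2 : gx Γ φ (φ v, false) = (gx Γ φ (φ v, true))⁻¹ := gx_inv Γ φ (φ v, true)
    show _ = gx Γ φ (φ v, false)
    rw [h1, h2, ← rel_conj]; group
  · exact rel_conj Γ φ v

lemma tt_zpow (k : ℤ) (x : V × Bool) :
    tt Γ φ ^ k * gx Γ φ x = gx Γ φ ((φ ^ (-k)) x.1, x.2) * tt Γ φ ^ k := by
  induction k using Int.induction_on generalizing x with
  | zero => simp
  | succ k ih =>
    have h1 : tt Γ φ * gx Γ φ x = gx Γ φ (φ⁻¹ x.1, x.2) * tt Γ φ := by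
      have := rel_conj' Γ φ (φ⁻¹ x.1, x.2)
      rw [show ((φ (φ⁻¹ x.1), x.2) : V × Bool) = x from
        Prod.ext (φ.apply_symm_apply x.1) rfl] at this
      rw [← this]; group
    rw [zpow_add_one, mul_assoc, h1, ← mul_assoc, ih, mul_assoc]
    congr 2
    rw [neg_add, zpow_add, Equiv.Perm.mul_apply]
    rfl
  | pred k ih =>
    have h1 : (tt Γ φ)⁻¹ * gx Γ φ x = gx Γ φ (φ x.1, x.2) * (tt Γ φ)⁻¹ := by
      rw [← rel_conj' Γ φ x]; group
    rw [zpow_sub_one, mul_assoc, h1, ← mul_assoc, ih, mul_assoc]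
    congr 2
    rw [neg_sub, sub_eq_add_neg, add_comm 1, zpow_add, Equiv.Perm.mul_apply]
    rfl

/-- apply a permutation to a word -/
def mapX (ψ : Equiv.Perm V) (l : List (V × Bool)) : List (V × Bool) :=
  l.map fun x => (ψ x.1, x.2)

lemma tt_zpow_evX (k : ℤ) (l : List (V × Bool)) :
    tt Γ φ ^ k * evX Γ φ l = evX Γ φ (mapX (φ ^ (-k)) l) * tt Γ φ ^ k := by
  induction l with
  | nil => rw [evX_nil, mapX, List.map_nil, evX_nil]; simp
  | cons x l ih =>
    rw [evX_cons, ← mul_assoc, tt_zpow, mul_assoc, ih, ← mul_assoc]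
    congr 1

/-- one step of the normal form computation -/
def stStep (q : List (V × Bool) × ℤ) (x : Option V × Bool) : List (V × Bool) × ℤ :=
  match x with
  | (some v, e) => (q.1 ++ [((φ ^ (-q.2)) v, e)], q.2)
  | (none, e) => (q.1, q.2 + if e then 1 else -1)

/-- The untwisted word and the exponent of `t`. -/
def st (w : List (Option V × Bool)) : List (V × Bool) × ℤ := w.foldl (stStep φ) ([], 0)

lemma ev_st (w : List (Option V × Bool)) :
    ev Γ φ w = evX Γ φ (st φ w).1 * tt Γ φ ^ (st φ w).2 := by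
  induction w using List.reverseRecOn with
  | nil => rw [ev_nil]; show _ = evX Γ φ [] * tt Γ φ ^ (0 : ℤ); rw [evX_nil]; simp
  | append_singleton w x ih =>
    have hst : st φ (w ++ [x]) = stStep φ (st φ w) x := by
      unfold st; rw [List.foldl_append]; rfl
    rw [ev_append, ih, hst]
    rcases x with ⟨_ | v, e⟩
    · show _ = evX Γ φ (st φ w).1 * tt Γ φ ^ ((st φ w).2 + if e then 1 else -1)
      rw [mul_assoc, zpow_add]
      congr 2
      cases e
      · rw [tt_inv]; simp
      · simp [tt]
    · show _ = evX Γ φ ((st φ w).1 ++ [((φ ^ (-(st φ w).2)) v, e)]) * tt Γ φ ^ (st φ w).2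
      rw [evX_append, mul_assoc, mul_assoc]
      congr 1
      exact tt_zpow Γ φ (st φ w).2 (v, e)

/-- number of `t`-letters -/
def nt (w : List (Option V × Bool)) : ℕ := w.countP fun x => x.1.isNone

lemma length_st (w : List (Option V × Bool)) : w.length = (st φ w).1.length + nt w := by
  induction w using List.reverseRecOn with
  | nil => rfl
  | append_singleton w x ih =>
    have hst : st φ (w ++ [x]) = stStep φ (st φ w) x := by
      unfold st; rw [List.foldl_append]; rfl
    rw [List.length_append, hst, ih, nt, nt, List.countP_append]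
    rcases x with ⟨_ | v, e⟩
    · show _ = (st φ w).1.length + _
      simp; ring
    · show _ = ((st φ w).1 ++ [((φ ^ (-(st φ w).2)) v, e)]).length + _
      simp; ring

lemma natAbs_st (w : List (Option V × Bool)) : (st φ w).2.natAbs ≤ nt w := by
  induction w using List.reverseRecOn with
  | nil => exact le_rfl
  | append_singleton w x ih =>
    have hst : st φ (w ++ [x]) = stStep φ (st φ w) x := by
      unfold st; rw [List.foldl_append]; rfl
    rw [hst, nt, List.countP_append]
    rcases x with ⟨_ | v, e⟩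
    · show ((st φ w).2 + if e then 1 else -1).natAbs ≤ _
      rw [nt] at ih
      simp only [List.countP_cons, Option.isNone_none, List.countP_nil]
      cases e <;> simp <;> omega
    · show (st φ w).2.natAbs ≤ _
      rw [nt] at ih
      omega

end words

section seq

variable [DecidableEq V] (Γ : SimpleGraph V) [DecidableRel Γ.Adj]

/-- the piling of the first `n` letters of a sequence -/
def pilS (W : ℕ → V × Bool) : ℕ → Om Γ
  | 0 => ⟨fun _ => [], Red.nil⟩
  | n + 1 => ⟨T Γ (W n) (pilS W n).1, T_red Γ _ (pilS W n).2⟩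

/-- every letter pushes a bead -/
def AP (W : ℕ → V × Bool) (n : ℕ) : Prop :=
  ∀ k < n, ((pilS Γ W k).1 (W k).1).head? ≠ some (some (!(W k).2))

/-- there is a cancelling pair -/
def Bad (W : ℕ → V × Bool) (n : ℕ) : Prop :=
  ∃ a b, a < b ∧ b < n ∧ W b = ((W a).1, !(W a).2) ∧ ∀ c, a < c → c < b → Γ.Adj (W a).1 (W c).1

variable {Γ}

lemma pilS_push {W : ℕ → V × Bool} {n : ℕ} (h : AP Γ W (n + 1)) :
    (pilS Γ W (n + 1)).1 = push Γ (W n) (pilS Γ W n).1 := by
  have := h n (Nat.lt_succ_self n)
  show T Γ (W n) (pilS Γ W n).1 = _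
  unfold T
  rw [if_neg this]

lemma AP_mono {W : ℕ → V × Bool} {n m : ℕ} (h : AP Γ W n) (hm : m ≤ n) : AP Γ W m :=
  fun k hk => h k (lt_of_lt_of_le hk hm)

lemma top_iff {W : ℕ → V × Bool} {n : ℕ} (h : AP Γ W n) (v : V) (δ : Bool) :
    ((pilS Γ W n).1 v).head? = some (some δ) ↔
      ∃ b < n, W b = (v, δ) ∧ ∀ c, b < c → c < n → Γ.Adj v (W c).1 := by
  induction n with
  | zero =>
    constructor
    · intro h; simp [pilS] at h
    · rintro ⟨b, hb, _⟩; omega
  | succ n ih =>
    have ih' := ih (AP_mono h (Nat.le_succ n))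
    rw [pilS_push h]
    by_cases h1 : v = (W n).1
    · subst h1
      rw [push_self]
      constructor
      · intro h2
        have h3 : (W n).2 = δ := by simpa using h2
        refine ⟨n, Nat.lt_succ_self n, by rw [← h3], fun c hc hc' => by omega⟩
      · rintro ⟨b, hb, hWb, hc⟩
        have : b = n := by
          by_contra hne
          exact (hc n (by omega) (Nat.lt_succ_self n)).ne rfl
        subst this
        rw [hWb]; rfl
    · by_cases h2 : Γ.Adj (W n).1 v
      · rw [push_adj Γ h2, ih']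
        constructor
        · rintro ⟨b, hb, hWb, hc⟩
          refine ⟨b, by omega, hWb, fun c hbc hcn => ?_⟩
          rcases Nat.lt_succ_iff_lt_or_eq.1 hcn with h3 | rfl
          · exact hc c hbc h3
          · exact h2.symm
        · rintro ⟨b, hb, hWb, hc⟩
          have hbn : b ≠ n := by
            rintro rfl
            rw [hWb] at h1; exact h1 rfl
          exact ⟨b, by omega, hWb, fun c hbc hcn => hc c hbc (by omega)⟩
      · have h3 : (push Γ (W n) (pilS Γ W n).1 v).head? = some none := by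
          simp [push, h1, h2]
        rw [h3]
        constructor
        · intro h; simp at h
        · rintro ⟨b, hb, hWb, hc⟩
          have hbn : b ≠ n := by
            rintro rfl
            rw [hWb] at h1; exact h1 rfl
          exact absurd (hc n (by omega) (Nat.lt_succ_self n)).symm h2

lemma AP_iff (W : ℕ → V × Bool) (n : ℕ) : AP Γ W n ↔ ¬ Bad Γ W n := by
  constructor
  · rintro h ⟨a, b, hab, hbn, hWb, hc⟩
    have h1 := (top_iff (AP_mono h hbn.le) (W a).1 (W a).2).2 ⟨a, hab, rfl, hc⟩
    apply h b hbn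
    rw [hWb]
    rw [h1]; simp
  · intro h
    induction n with
    | zero => intro k hk; omega
    | succ n ih =>
      have h1 : AP Γ W n := ih fun ⟨a, b, hab, hbn, h2⟩ => h ⟨a, b, hab, by omega, h2⟩
      intro k hk
      rcases Nat.lt_succ_iff_lt_or_eq.1 hk with h2 | rfl
      · exact h1 k h2
      · intro h3
        obtain ⟨b, hb, hWb, hc⟩ := (top_iff h1 _ _).1 h3
        apply h
        refine ⟨b, k, hb, Nat.lt_succ_self k, ?_, ?_⟩
        · rw [hWb]; simp
        · intro c hbc hck
          rw [hWb]; exact hc c hbc hck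

lemma beads_pilS [Fintype V] {W : ℕ → V × Bool} {n : ℕ} (h : AP Γ W n) :
    beads (pilS Γ W n).1 = n := by
  induction n with
  | zero => simp [pilS, beads]
  | succ n ih =>
    rw [pilS_push h, beads_push, ih (AP_mono h (Nat.le_succ n))]

variable {φ : Equiv.Perm V} (hφ : ∀ u v, Γ.Adj (φ u) (φ v) ↔ Γ.Adj u v)

lemma rho_gx (v : V) : rho hφ (gx Γ φ (v, true)) = MulOpposite.op (Tperm Γ v) := by
  rw [gx_true, rho, PresentedGroup.toGroup.of]

lemma rho_tt : rho hφ (tt Γ φ) = MulOpposite.op (tperm hφ) := by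
  rw [tt_eq, rho, PresentedGroup.toGroup.of]

lemma act_gx (x : V × Bool) (π : Om Γ) : act hφ (gx Γ φ x) π = ⟨T Γ x π.1, T_red Γ _ π.2⟩ := by
  rcases x with ⟨v, e⟩
  cases e
  · rw [show gx Γ φ (v, false) = (gx Γ φ (v, true))⁻¹ from gx_inv Γ φ (v, true)]
    unfold act
    rw [map_inv, rho_gx]
    rfl
  · unfold act
    rw [rho_gx]
    rfl

lemma act_tt (π : Om Γ) : (act hφ (tt Γ φ) π).1 = fun w => π.1 (φ.symm w) := by
  unfold act
  rw [rho_tt]
  rfl

lemma act_tt_inv (π : Om Γ) : (act hφ (tt Γ φ)⁻¹ π).1 = fun w => π.1 (φ w) := by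
  unfold act
  rw [map_inv, rho_tt]
  rfl

lemma pilS_eq (W : ℕ → V × Bool) (n : ℕ) :
    pilS Γ W n = act hφ (evX Γ φ ((List.range n).map W)) ⟨fun _ => [], Red.nil⟩ := by
  induction n with
  | zero => rw [List.range_zero, List.map_nil, evX_nil, act_one]; rfl
  | succ n ih =>
    rw [List.range_succ, List.map_append, evX_append, act_mul, ← ih, List.map_singleton]
    exact (act_gx hφ (W n) _).symm

/-- number of letters different from `t`, `t⁻¹` -/
def nx (w : List (Option V × Bool)) : ℕ := w.countP fun x => x.1.isSome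

lemma beads_act [Fintype V] (w : List (Option V × Bool)) (π : Om Γ) :
    beads (act hφ (ev Γ φ w) π).1 ≤ beads π.1 + nx w := by
  induction w using List.reverseRecOn with
  | nil => rw [ev_nil, act_one]; exact Nat.le_add_right _ _
  | append_singleton w x ih =>
    rw [ev_append, act_mul, nx, List.countP_append]
    rw [nx] at ih
    rcases x with ⟨_ | v, e⟩
    · have hb : beads (act hφ (ev Γ φ [(none, e)]) (act hφ (ev Γ φ w) π)).1 =
          beads (act hφ (ev Γ φ w) π).1 := by
        cases e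
        · rw [tt_inv, act_tt_inv]
          exact Fintype.sum_equiv φ _ _ fun _ => rfl
        · rw [show ev Γ φ [(none, true)] = tt Γ φ from rfl, act_tt]
          exact Fintype.sum_equiv φ.symm _ _ fun _ => rfl
      rw [hb]; omega
    · have hb := beads_T Γ (v, e) (act hφ (ev Γ φ w) π).1
      rw [show ev Γ φ [(some v, e)] = gx Γ φ (v, e) from rfl, act_gx]
      have h1 : List.countP (fun x : Option V × Bool => x.1.isSome) [(some v, e)] = 1 := by simp
      rw [h1]
      show beads (T Γ (v, e) _) ≤ _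
      omega

end seq

section main

variable (Γ : SimpleGraph V) (φ : Equiv.Perm V)

lemma ev_surj (g : A Γ φ) : ∃ w, ev Γ φ w = g := by
  obtain ⟨x, rfl⟩ := PresentedGroup.mk_surjective (rels Γ φ) g
  obtain ⟨L, rfl⟩ := Quot.exists_rep x
  exact ⟨L, rfl⟩

/-- membership in the language -/
lemma mem_ConjGeo (w : List (Option V × Bool)) :
    w ∈ ConjGeo Γ φ ↔ ∀ w', IsConj (ev Γ φ w) (ev Γ φ w') → w.length ≤ w'.length := by
  have hlen : ∀ w', len Γ φ (ev Γ φ w') ≤ w'.length := fun w' => Nat.sInf_le ⟨w', rfl, rfl⟩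
  have h0 : w ∈ ConjGeo Γ φ ↔ w.length = sInf {n | ∃ h, IsConj (ev Γ φ w) h ∧ len Γ φ h = n} :=
    Iff.rfl
  rw [h0]
  constructor
  · intro h w' hw'
    rw [h]
    refine (Nat.sInf_le ?_).trans (hlen w')
    exact ⟨_, hw', rfl⟩
  · intro h
    apply le_antisymm
    · have hne : {n | ∃ h, IsConj (ev Γ φ w) h ∧ len Γ φ h = n}.Nonempty :=
        ⟨_, _, IsConj.refl _, rfl⟩
      obtain ⟨g, hg, hg2⟩ := Nat.sInf_mem hne
      rw [← hg2]
      have hne2 : {n | ∃ w, ev Γ φ w = g ∧ w.length = n}.Nonempty := by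
        obtain ⟨w', hw'⟩ := ev_surj Γ φ g
        exact ⟨_, w', hw', rfl⟩
      obtain ⟨w', hw', hw2⟩ := Nat.sInf_mem hne2
      unfold len
      rw [← hw2]
      apply h
      rw [hw']; exact hg
    · refine (Nat.sInf_le ?_).trans (hlen w)
      exact ⟨_, IsConj.refl _, rfl⟩

/-- the homomorphism recording the exponent of `t` -/
def chi : A Γ φ →* Equiv.Perm V :=
  PresentedGroup.toGroup (f := fun x : Option V =>
    match x with
    | some _ => 1
    | none => φ⁻¹) (by
      rintro r ((⟨u, v, h, rfl⟩ | rfl) | ⟨v, rfl⟩)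
      · simp
      · simp [pow_orderOf_eq_one]
      · simp)

lemma chi_evX (l : List (V × Bool)) : chi Γ φ (evX Γ φ l) = 1 := by
  induction l with
  | nil => rw [evX_nil, map_one]
  | cons x l ih =>
    rw [evX_cons, map_mul, ih, mul_one]
    have h1 : ∀ v, chi Γ φ (gx Γ φ (v, true)) = 1 := by
      intro v
      rw [gx_true, chi, PresentedGroup.toGroup.of]
    rcases x with ⟨v, e⟩
    cases e
    · rw [show gx Γ φ (v, false) = (gx Γ φ (v, true))⁻¹ from gx_inv Γ φ (v, true), map_inv, h1,
        inv_one]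
    · exact h1 v

lemma chi_ev (w : List (Option V × Bool)) : chi Γ φ (ev Γ φ w) = φ ^ (-(st φ w).2) := by
  have h1 : chi Γ φ (tt Γ φ) = φ⁻¹ := by rw [tt_eq, chi, PresentedGroup.toGroup.of]
  rw [ev_st, map_mul, chi_evX, one_mul, map_zpow, h1, inv_zpow', ]

lemma conj_exp {w w' : List (Option V × Bool)} (h : IsConj (ev Γ φ w) (ev Γ φ w')) :
    φ ^ (-(st φ w).2) = φ ^ (-(st φ w').2) := by
  obtain ⟨c, hc⟩ := isConj_iff.1 h
  obtain ⟨k, rfl⟩ := ev_surj Γ φ c
  have h1 := congrArg (chi Γ φ) hc
  rw [map_mul, map_mul, map_inv, chi_ev, chi_ev, chi_ev] at h1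
  rw [← h1, ← zpow_add, ← zpow_neg, ← zpow_add]
  congr 1
  ring

/-- the least number of letters `t` needed for a power of `φ` -/
noncomputable def nrm (p : Equiv.Perm V) : ℕ := sInf {k : ℕ | p = φ ^ k ∨ p = (φ ^ k)⁻¹}

lemma nrm_le (s : ℤ) : nrm φ (φ ^ (-s)) ≤ s.natAbs := by
  apply Nat.sInf_le
  rcases Int.natAbs_eq s with h | h
  · right
    conv_lhs => rw [h]
    rw [zpow_neg, zpow_natCast]
  · left
    conv_lhs => rw [h]
    rw [neg_neg, zpow_natCast]

lemma nrm_spec (s : ℤ) : φ ^ (-s) = φ ^ (nrm φ (φ ^ (-s))) ∨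
    φ ^ (-s) = (φ ^ (nrm φ (φ ^ (-s))))⁻¹ := by
  have hne : {k : ℕ | φ ^ (-s) = φ ^ k ∨ φ ^ (-s) = (φ ^ k)⁻¹}.Nonempty := by
    refine ⟨s.natAbs, ?_⟩
    rcases Int.natAbs_eq s with h | h
    · right
      conv_lhs => rw [h]
      rw [zpow_neg, zpow_natCast]
    · left
      conv_lhs => rw [h]
      rw [neg_neg, zpow_natCast]
  exact Nat.sInf_mem hne

/-- a word for a power of `t` -/
def tword (k : ℤ) : List (Option V × Bool) :=
  if 0 ≤ k then List.replicate k.natAbs (none, true) else List.replicate k.natAbs (none, false)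

lemma tword_length (k : ℤ) : (tword (V := V) k).length = k.natAbs := by
  unfold tword; split_ifs <;> simp

lemma ev_replicate (x : Option V × Bool) (k : ℕ) :
    ev Γ φ (List.replicate k x) = ev Γ φ [x] ^ k := by
  induction k with
  | zero => rw [pow_zero, List.replicate_zero, ev_nil]
  | succ k ih =>
    rw [List.replicate_succ, pow_succ', ← ih, ← ev_append]; rfl

lemma ev_tword (k : ℤ) : ev Γ φ (tword k) = tt Γ φ ^ k := by
  unfold tword
  split_ifs with h
  · rw [ev_replicate]
    obtain ⟨n, rfl⟩ := Int.eq_ofNat_of_zero_le h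
    rw [zpow_natCast]; rfl
  · rw [ev_replicate, tt_inv]
    obtain ⟨n, rfl⟩ : ∃ n : ℕ, k = -(n : ℤ) := ⟨k.natAbs, by omega⟩
    rw [zpow_neg, zpow_natCast, inv_pow]
    simp

lemma tt_zpow_eq {k l : ℤ} (h : φ ^ k = φ ^ l) : tt Γ φ ^ k = tt Γ φ ^ l := by
  have h1 : φ ^ (k - l) = 1 := by rw [zpow_sub, h, mul_inv_cancel]
  have h2 : (orderOf φ : ℤ) ∣ k - l := orderOf_dvd_iff_zpow_eq_one.2 h1
  have h3 : tt Γ φ ^ (k - l) = 1 := by
    obtain ⟨c, hc⟩ := h2
    rw [hc, zpow_mul, zpow_natCast, rel_t, one_zpow]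
  rw [zpow_sub, mul_inv_eq_one] at h3
  exact h3

/-- If too many letters `t` are used then the word is not a conjugacy geodesic. -/
lemma nt_eq {w : List (Option V × Bool)} (h : w ∈ ConjGeo Γ φ) :
    nt w = nrm φ (φ ^ (-(st φ w).2)) := by
  apply le_antisymm
  · rw [mem_ConjGeo] at h
    set s := (st φ w).2 with hs
    obtain ⟨k, hk, hk2⟩ : ∃ k : ℤ, k.natAbs = nrm φ (φ ^ (-s)) ∧ φ ^ s = φ ^ k := by
      rcases nrm_spec φ s with h1 | h1
      · refine ⟨-(nrm φ (φ ^ (-s)) : ℤ), by simp, ?_⟩
        rw [zpow_neg, zpow_natCast, ← h1, zpow_neg, inv_inv]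
      · refine ⟨(nrm φ (φ ^ (-s)) : ℤ), by simp, ?_⟩
        have h2 := congrArg (fun x => x⁻¹) h1
        simp only [inv_inv] at h2
        rw [zpow_natCast, ← h2, zpow_neg, inv_inv]
    have h2 := h ((st φ w).1.map (fun x => (some x.1, x.2)) ++ tword k) (by
      rw [ev_append, ev_tword, ← tt_zpow_eq Γ φ hk2]
      rw [show ev Γ φ ((st φ w).1.map fun x => (some x.1, x.2)) = evX Γ φ (st φ w).1 from rfl,
        hs, ← ev_st])
    rw [List.length_append, List.length_map, tword_length, hk] at h2
    have h3 := length_st φ w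
    omega
  · exact (nrm_le φ _).trans (natAbs_st φ w)

variable {Γ φ}

section periodic

variable {W : ℕ → V × Bool} {ψ : Equiv.Perm V} {l : ℕ}
  (hψ : ∀ u v, Γ.Adj (ψ u) (ψ v) ↔ Γ.Adj u v)
  (hW : ∀ k, W (k + l) = (ψ (W k).1, (W k).2))

include hW in
lemma W_mul (e k : ℕ) : W (e * l + k) = ((ψ ^ e) (W k).1, (W k).2) := by
  induction e with
  | zero => simp
  | succ e ih =>
    rw [show (e + 1) * l + k = e * l + k + l by ring, hW, ih, pow_succ']
    rfl

include hψ in
lemma adj_pow (e : ℕ) (u v : V) : Γ.Adj ((ψ ^ e) u) ((ψ ^ e) v) ↔ Γ.Adj u v := by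
  induction e with
  | zero => rfl
  | succ e ih =>
    rw [pow_succ', Equiv.Perm.mul_apply, Equiv.Perm.mul_apply, hψ, ih]

include hψ hW in
/-- a bad pair can be moved to the first period -/
lemma bad_shift (hl : 0 < l) {n : ℕ} (h : Bad Γ W n) :
    ∃ a b, a < l ∧ a < b ∧ W b = ((W a).1, !(W a).2) ∧
      ∀ c, a < c → c < b → Γ.Adj (W a).1 (W c).1 := by
  obtain ⟨a, b, hab, _, hWb, hc⟩ := h
  obtain ⟨i, ρ, ha, hρ⟩ : ∃ i ρ, a = i * l + ρ ∧ ρ < l :=
    ⟨a / l, a % l, by rw [mul_comm]; exact (Nat.div_add_mod a l).symm, Nat.mod_lt _ hl⟩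
  obtain ⟨b', hb'⟩ : ∃ b', b = i * l + b' := ⟨b - i * l, by omega⟩
  subst ha hb'
  refine ⟨ρ, b', hρ, by omega, ?_, ?_⟩
  · rw [W_mul hW, W_mul hW] at hWb
    have h1 := congrArg Prod.fst hWb
    have h2 := congrArg Prod.snd hWb
    simp only at h1 h2
    exact Prod.ext ((ψ ^ i).injective h1) h2
  · intro c hac hcb
    have h3 := hc (i * l + c) (by omega) (by omega)
    rw [W_mul hW, W_mul hW] at h3
    exact (adj_pow hψ _ _ _).1 h3

include hψ hW in
lemma bad_bound (hl : 0 < l) {m : ℕ} (hm0 : 0 < m) (hm : ψ ^ m = 1) {n : ℕ} (h : Bad Γ W n) :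
    Bad Γ W ((m + 1) * l) := by
  obtain ⟨a, b, ha, hab, hWb, hc⟩ := bad_shift hψ hW hl h
  refine ⟨a, b, hab, ?_, hWb, hc⟩
  by_contra hcon
  push Not at hcon
  have h1 : b = m * l + (b - m * l) := by
    have : m * l ≤ (m + 1) * l := Nat.mul_le_mul_right _ (Nat.le_succ m)
    omega
  have h2 : W b = W (b - m * l) := by
    conv_lhs => rw [h1, W_mul hW, hm]
    rfl
  have h3 : a ≤ b - m * l := by
    have : (m + 1) * l = m * l + l := by ring
    omega
  rcases h3.lt_or_eq with h4 | h4
  · have h5 : 0 < m * l := Nat.mul_pos hm0 hl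
    have h6 := hc (b - m * l) h4 (by omega)
    rw [← h2, hWb] at h6
    exact h6.ne rfl
  · rw [← h4] at h2
    rw [h2] at hWb
    have := congrArg Prod.snd hWb
    simp at this

end periodic

lemma range_map_mul {W : ℕ → V × Bool} {ψ : Equiv.Perm V} {l : ℕ}
    (hW : ∀ k, W (k + l) = (ψ (W k).1, (W k).2)) {U : List (V × Bool)}
    (hU : (List.range l).map W = U) (N : ℕ) :
    (List.range ((N + 1) * l)).map W = (List.range (N * l)).map W ++ mapX (ψ ^ N) U := by
  rw [show (N + 1) * l = N * l + l by ring, List.range_add, List.map_append, List.map_map, ← hU,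
    mapX, List.map_map]
  congr 1
  apply List.map_congr_left
  intro k _
  exact W_mul hW N k

lemma pow_ev {w : List (Option V × Bool)} {W : ℕ → V × Bool}
    (hW : ∀ k, W (k + (st φ w).1.length) = ((φ ^ (-(st φ w).2)) (W k).1, (W k).2))
    (hU : (List.range (st φ w).1.length).map W = (st φ w).1) (N : ℕ) :
    ev Γ φ w ^ N = evX Γ φ ((List.range (N * (st φ w).1.length)).map W) *
      tt Γ φ ^ ((st φ w).2 * N) := by
  induction N with
  | zero => simp [evX_nil]
  | succ N ih =>
    have h1 := tt_zpow_evX Γ φ ((st φ w).2 * N) (st φ w).1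
    have h2 : φ ^ (-((st φ w).2 * (N : ℤ))) = (φ ^ (-(st φ w).2)) ^ N := by
      rw [← zpow_natCast, ← zpow_mul]; congr 1; ring
    rw [h2] at h1
    have h3 : (st φ w).2 * ((N + 1 : ℕ) : ℤ) = (st φ w).2 * N + (st φ w).2 := by push_cast; ring
    rw [pow_succ, ih, range_map_mul hW hU, evX_append, h3, zpow_add]
    conv_lhs => rw [ev_st Γ φ w]
    calc _ = evX Γ φ ((List.range (N * (st φ w).1.length)).map W) *
          (tt Γ φ ^ ((st φ w).2 * N) * evX Γ φ (st φ w).1) * tt Γ φ ^ (st φ w).2 := by group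
      _ = _ := by rw [h1]; group

lemma nx_append (w w' : List (Option V × Bool)) : nx (w ++ w') = nx w + nx w' := by
  unfold nx; rw [List.countP_append]

lemma nx_le (w : List (Option V × Bool)) : nx w ≤ w.length := List.countP_le_length

lemma nx_eq (w : List (Option V × Bool)) : nx w = (st φ w).1.length := by
  have h1 := length_st φ w
  have h2 : w.length = nx w + nt w := by
    unfold nx nt
    induction w with
    | nil => rfl
    | cons x w ih =>
      have ih' : w.length = List.countP (fun x : Option V × Bool => x.1.isSome) w +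
        List.countP (fun x : Option V × Bool => x.1.isNone) w := by
        have := List.length_eq_countP_add_countP (fun x : Option V × Bool => x.1.isSome) (l := w)
        rw [this]
        congr 1
        apply List.countP_congr
        intro x _
        rcases x with ⟨_ | v, e⟩ <;> simp
      rw [List.length_cons, List.countP_cons, List.countP_cons, ih']
      rcases x with ⟨_ | v, e⟩ <;> simp <;> ring
  omega

lemma nx_flatten (w : List (Option V × Bool)) (N : ℕ) :
    nx (List.replicate N w).flatten = N * nx w := by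
  induction N with
  | zero => simp [nx]
  | succ N ih => rw [List.replicate_succ, List.flatten_cons, nx_append, ih]; ring

lemma ev_flatten (w : List (Option V × Bool)) (N : ℕ) :
    ev Γ φ (List.replicate N w).flatten = ev Γ φ w ^ N := by
  induction N with
  | zero => simp [ev_nil]
  | succ N ih => rw [List.replicate_succ, List.flatten_cons, ev_append, ih, pow_succ']

/-- lower bound by translation lengths -/
lemma lower [DecidableEq V] [DecidableRel Γ.Adj] [Fintype V]
    (hφ : ∀ u v, Γ.Adj (φ u) (φ v) ↔ Γ.Adj u v) {w w' : List (Option V × Bool)}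
    {W : ℕ → V × Bool}
    (hW : ∀ k, W (k + (st φ w).1.length) = ((φ ^ (-(st φ w).2)) (W k).1, (W k).2))
    (hU : (List.range (st φ w).1.length).map W = (st φ w).1) (hnb : ∀ n, ¬ Bad Γ W n)
    (hconj : IsConj (ev Γ φ w) (ev Γ φ w')) : (st φ w).1.length ≤ (st φ w').1.length := by
  obtain ⟨c, hc⟩ := isConj_iff.1 hconj.symm
  obtain ⟨K, rfl⟩ := ev_surj Γ φ c
  obtain ⟨K', hK'⟩ := ev_surj Γ φ (ev Γ φ K)⁻¹
  have hle : ∀ (k : ℤ) (π : Om Γ), beads (act hφ (tt Γ φ ^ k) π).1 ≤ beads π.1 := by
    intro k π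
    have h1 := beads_act hφ (tword k) π
    rw [ev_tword] at h1
    have h2 : nx (tword (V := V) k) = 0 := by
      unfold nx tword
      split_ifs <;> simp [List.countP_replicate]
    omega
  have heq : ∀ (k : ℤ) (π : Om Γ), beads (act hφ (tt Γ φ ^ k) π).1 = beads π.1 := by
    intro k π
    apply le_antisymm (hle k π)
    have h1 := hle (-k) (act hφ (tt Γ φ ^ k) π)
    rw [← act_mul, ← zpow_add, add_neg_cancel, zpow_zero, act_one] at h1
    exact h1
  have key : ∀ N : ℕ, N * (st φ w).1.length ≤ K.length + K'.length + N * (st φ w').1.length := by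
    intro N
    have hAP : AP Γ W (N * (st φ w).1.length) := (AP_iff W _).2 (hnb _)
    have h1 := beads_pilS hAP
    rw [pilS_eq hφ] at h1
    have h2 := heq ((st φ w).2 * N) (act hφ (evX Γ φ ((List.range
      (N * (st φ w).1.length)).map W)) ⟨fun _ => [], Red.nil⟩)
    rw [h1, ← act_mul, ← pow_ev hW hU, ← hc] at h2
    have h3 : (ev Γ φ K * ev Γ φ w' * (ev Γ φ K)⁻¹) ^ N =
        ev Γ φ (K ++ (List.replicate N w').flatten ++ K') := by
      rw [ev_append, ev_append, ev_flatten, hK', conj_pow]
    rw [h3] at h2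
    have h4 := beads_act hφ (K ++ (List.replicate N w').flatten ++ K')
      (⟨fun _ => [], Red.nil⟩ : Om Γ)
    rw [h2, nx_append, nx_append, nx_flatten, nx_eq (φ := φ) w'] at h4
    have h5 : beads (V := V) (fun _ => []) = 0 := by simp [beads]
    have h6 := nx_le K
    have h7 := nx_le K'
    rw [h5] at h4
    omega
  by_contra hcon
  push Not at hcon
  have h8 := key (K.length + K'.length + 1)
  have h9 : (K.length + K'.length + 1) * ((st φ w').1.length + 1) ≤
      (K.length + K'.length + 1) * (st φ w).1.length := Nat.mul_le_mul_left _ hcon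
  have h10 : (K.length + K'.length + 1) * ((st φ w').1.length + 1) =
      (K.length + K'.length + 1) * (st φ w').1.length + (K.length + K'.length + 1) := by ring
  omega

lemma comm_list {z : V × Bool} {L : List (V × Bool)} (h : ∀ x ∈ L, Γ.Adj z.1 x.1) :
    Commute (gx Γ φ z) (evX Γ φ L) := by
  induction L with
  | nil => rw [evX_nil]; exact Commute.one_right _
  | cons x L ih =>
    rw [evX_cons]
    exact (rel_adj' Γ φ (h x (by simp))).mul_right (ih fun y hy => h y (by simp [hy]))

lemma front_remove {z y : V × Bool} (hzy : z ≠ y) {A' C : List (V × Bool)}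
    (h : ∃ B D, A' ++ y :: C = B ++ z :: D ∧ ∀ x ∈ B, Γ.Adj z.1 x.1) :
    ∃ B D, A' ++ C = B ++ z :: D ∧ ∀ x ∈ B, Γ.Adj z.1 x.1 := by
  induction A' with
  | nil =>
    obtain ⟨B, D, h1, h2⟩ := h
    rcases B with _ | ⟨b, B⟩
    · simp only [List.nil_append, List.cons.injEq] at h1
      exact absurd h1.1.symm hzy
    · simp only [List.nil_append, List.cons_append, List.cons.injEq] at h1
      exact ⟨B, D, by simpa using h1.2, fun x hx => h2 x (by simp [hx])⟩
  | cons a A' ih =>
    obtain ⟨B, D, h1, h2⟩ := h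
    rcases B with _ | ⟨b, B⟩
    · simp only [List.nil_append, List.cons_append, List.cons.injEq] at h1
      exact ⟨[], A' ++ C, by simp [h1.1], by simp⟩
    · simp only [List.cons_append, List.cons.injEq] at h1
      obtain ⟨B', D', h3, h4⟩ := ih ⟨B, D, h1.2, fun x hx => h2 x (by simp [hx])⟩
      refine ⟨a :: B', D', by simp [h3], ?_⟩
      intro x hx
      rcases List.mem_cons.1 hx with rfl | hx
      · exact h2 x (by simp [h1.1])
      · exact h4 x hx

/-- A bad pair leads to a shorter conjugate. -/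
lemma reduce {w : List (Option V × Bool)} {W : ℕ → V × Bool}
    (hW : ∀ k, W (k + (st φ w).1.length) = ((φ ^ (-(st φ w).2)) (W k).1, (W k).2))
    (hU : (List.range (st φ w).1.length).map W = (st φ w).1)
    (hψ : ∀ u v, Γ.Adj ((φ ^ (-(st φ w).2)) u) ((φ ^ (-(st φ w).2)) v) ↔ Γ.Adj u v)
    (hl : 0 < (st φ w).1.length) {n : ℕ} (hbad : Bad Γ W n) :
    ∃ w', IsConj (ev Γ φ w) (ev Γ φ w') ∧ w'.length < w.length := by
  obtain ⟨a, b, ha, hab, hWb, hc⟩ := bad_shift hψ hW hl hbad
  set U := (st φ w).1 with hUdef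
  set s := (st φ w).2 with hs
  set ψ := φ ^ (-s) with hψdef
  set l := U.length with hldef
  have hUc : ∀ c (hc : c < l), U[c] = W c := by
    intro c hc
    have h1 : U[c] = ((List.range l).map W)[c]'(by simpa using hc) := by simp only [hU]
    rw [h1]; simp
  have hnt : s.natAbs ≤ nt w := natAbs_st φ w
  have hlen : w.length = l + nt w := length_st φ w
  -- suffices to find a shorter word in the RAAG letters
  suffices h : ∃ U' : List (V × Bool), U'.length + 2 = l ∧
      IsConj (ev Γ φ w) (evX Γ φ U' * tt Γ φ ^ s) by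
    obtain ⟨U', hU', hconj⟩ := h
    refine ⟨U'.map (fun x => (some x.1, x.2)) ++ tword s, ?_, ?_⟩
    · rw [ev_append, ev_tword]; exact hconj
    · rw [List.length_append, List.length_map, tword_length]
      omega
  have hev : ev Γ φ w = evX Γ φ U * tt Γ φ ^ s := ev_st Γ φ w
  obtain ⟨y, hy⟩ : ∃ y, y = W a := ⟨_, rfl⟩
  have hsplit : U = U.take a ++ y :: U.drop (a + 1) := by
    rw [hy, ← hUc a ha]
    conv_lhs => rw [← List.take_append_drop a U]
    rw [List.drop_eq_getElem_cons ha]
  by_cases hd : b < l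
  · -- cancellation inside `U`
    have hsplit2 : U.drop (a + 1) = (U.drop (a + 1)).take (b - (a + 1)) ++
        (y.1, !y.2) :: U.drop (b + 1) := by
      conv_lhs => rw [← List.take_append_drop (b - (a + 1)) (U.drop (a + 1))]
      rw [List.drop_drop, show a + 1 + (b - (a + 1)) = b by omega,
        List.drop_eq_getElem_cons hd, hUc b hd, hWb, hy]
    have hB : ∀ x ∈ (U.drop (a + 1)).take (b - (a + 1)), Γ.Adj y.1 x.1 := by
      intro x hx
      obtain ⟨i, hi, rfl⟩ := List.mem_iff_getElem.1 hx
      rw [List.getElem_take, List.getElem_drop]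
      rw [List.length_take, List.length_drop] at hi
      have h1 : a + 1 + i < b := by omega
      rw [hUc _ (by omega), hy]
      exact hc _ (by omega) h1
    refine ⟨U.take a ++ ((U.drop (a + 1)).take (b - (a + 1)) ++ U.drop (b + 1)), ?_, ?_⟩
    · simp only [List.length_append, List.length_take, List.length_drop]
      omega
    · rw [hev]
      have h2 : evX Γ φ U = evX Γ φ (U.take a ++ ((U.drop (a + 1)).take (b - (a + 1)) ++
          U.drop (b + 1))) := by
        conv_lhs => rw [hsplit, hsplit2]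
        rw [evX_append, evX_cons, evX_append, evX_cons, evX_append, evX_append, gx_inv]
        have h3 := (comm_list (Γ := Γ) (φ := φ) hB).eq
        calc _ = evX Γ φ (U.take a) * (gx Γ φ y *
              evX Γ φ ((U.drop (a + 1)).take (b - (a + 1)))) * ((gx Γ φ y)⁻¹ *
              evX Γ φ (U.drop (b + 1))) := by group
          _ = _ := by rw [h3]; group
      rw [h2]
  · -- cancellation between different copies
    push Not at hd
    obtain ⟨d, q, hbq, hq, hd0⟩ : ∃ d q, b = d * l + q ∧ q < l ∧ 0 < d := by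
      refine ⟨b / l, b % l, ?_, Nat.mod_lt _ hl, Nat.div_pos hd hl⟩
      rw [mul_comm]; exact (Nat.div_add_mod b l).symm
    have hC : ∀ x ∈ U.drop (a + 1), Γ.Adj y.1 x.1 := by
      intro x hx
      obtain ⟨i, hi, rfl⟩ := List.mem_iff_getElem.1 hx
      rw [List.getElem_drop]
      rw [List.length_drop] at hi
      rw [hUc _ (by omega), hy]
      exact hc _ (by omega) (by omega)
    have hmid : ∀ e, 0 < e → e < d → ∀ x ∈ U, Γ.Adj ((ψ ^ e).symm y.1) x.1 := by
      intro e he0 hed x hx
      obtain ⟨i, hi, rfl⟩ := List.mem_iff_getElem.1 hx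
      have hle : (e + 1) * l ≤ d * l := Nat.mul_le_mul_right _ hed
      have hee : (e + 1) * l = e * l + l := by ring
      have hll : l ≤ e * l := Nat.le_mul_of_pos_left l he0
      have hil : i < l := hi
      have h1 := hc (e * l + i) (by omega) (by omega)
      rw [W_mul hW, ← hy] at h1
      rw [hUc i hil, ← adj_pow hψ e, Equiv.apply_symm_apply]
      exact h1
    -- the letter cancelling at the front
    obtain ⟨z, hz⟩ : ∃ z : V × Bool, z = ((ψ ^ d).symm y.1, !y.2) := ⟨_, rfl⟩
    have hWq : W q = z := by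
      rw [hbq, W_mul hW, ← hy] at hWb
      have h1 := congrArg Prod.fst hWb
      have h2 := congrArg Prod.snd hWb
      simp only at h1 h2
      rw [hz]
      refine Prod.ext ?_ h2
      show (W q).1 = (ψ ^ d).symm y.1
      rw [← h1, Equiv.symm_apply_apply]
    have hfront : ∃ B D, U.take a ++ y :: U.drop (a + 1) = B ++ z :: D ∧
        ∀ x ∈ B, Γ.Adj z.1 x.1 := by
      refine ⟨U.take q, U.drop (q + 1), ?_, ?_⟩
      · rw [← hsplit, ← hWq, ← hUc q hq]
        conv_lhs => rw [← List.take_append_drop q U]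
        rw [List.drop_eq_getElem_cons hq]
      · intro x hx
        obtain ⟨i, hi, rfl⟩ := List.mem_iff_getElem.1 hx
        rw [List.getElem_take]
        rw [List.length_take] at hi
        have hll : l ≤ d * l := Nat.le_mul_of_pos_left l hd0
        have h1 := hc (d * l + i) (by omega) (by omega)
        rw [W_mul hW, ← hy] at h1
        rw [hUc i (by omega), ← adj_pow hψ d, hz]
        show Γ.Adj ((ψ ^ d) ((ψ ^ d).symm y.1)) _
        rw [Equiv.apply_symm_apply]
        exact h1
    have hzy : z ≠ y := by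
      intro h
      have := congrArg Prod.snd h
      rw [hz] at this
      simp at this
    obtain ⟨B, D, hBD, hB⟩ := front_remove hzy hfront
    have hU1 : evX Γ φ U = evX Γ φ (U.take a ++ U.drop (a + 1)) * gx Γ φ y := by
      conv_lhs => rw [hsplit]
      rw [evX_append, evX_cons, evX_append, (comm_list (Γ := Γ) (φ := φ) hC).eq]
      group
    have hmem : ∀ x ∈ U.take a ++ U.drop (a + 1), x ∈ U := by
      intro x hx
      rcases List.mem_append.1 hx with h | h
      · exact List.mem_of_mem_take h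
      · exact List.mem_of_mem_drop h
    set U1 := U.take a ++ U.drop (a + 1) with hU1def
    -- moving the letter around
    have hmove : ∀ e, gx Γ φ ((ψ ^ e).symm y.1, y.2) * tt Γ φ ^ s =
        tt Γ φ ^ s * gx Γ φ ((ψ ^ (e + 1)).symm y.1, y.2) := by
      intro e
      rw [tt_zpow]
      congr 3
      show (ψ ^ e).symm y.1 = ψ ((ψ ^ (e + 1)).symm y.1)
      rw [pow_succ]
      show _ = ψ (ψ.symm ((ψ ^ e).symm y.1))
      rw [Equiv.apply_symm_apply]
    have hchain : ∀ e, e < d → IsConj (ev Γ φ w)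
        (evX Γ φ U1 * gx Γ φ ((ψ ^ e).symm y.1, y.2) * tt Γ φ ^ s) := by
      intro e
      induction e with
      | zero =>
        intro _
        have : ((ψ ^ 0).symm y.1, y.2) = y := rfl
        rw [this, ← hU1, ← hev]
      | succ e ih =>
        intro he
        refine (ih (by omega)).trans ?_
        rw [mul_assoc, hmove e]
        have hcm : Commute (gx Γ φ ((ψ ^ (e + 1)).symm y.1, y.2)) (evX Γ φ U1) :=
          comm_list fun x hx => hmid (e + 1) (by omega) he x (hmem x hx)
        rw [isConj_iff]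
        refine ⟨gx Γ φ ((ψ ^ (e + 1)).symm y.1, y.2), ?_⟩
        rw [← hcm.eq]
        group
    refine ⟨B ++ D, ?_, ?_⟩
    · have h1 := congrArg List.length hBD
      rw [hU1def] at h1
      simp only [List.length_append, List.length_take, List.length_drop, List.length_cons] at h1
      rw [List.length_append]
      omega
    · have h1 := hchain (d - 1) (by omega)
      refine h1.trans ?_
      rw [mul_assoc, hmove (d - 1), show d - 1 + 1 = d by omega]
      have hzinv : gx Γ φ ((ψ ^ d).symm y.1, y.2) = (gx Γ φ z)⁻¹ := by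
        rw [← gx_inv, hz]; simp
      have hU1' : evX Γ φ U1 = gx Γ φ z * evX Γ φ (B ++ D) := by
        rw [hBD, evX_append, evX_cons, evX_append, ← mul_assoc, ← mul_assoc,
          (comm_list (Γ := Γ) (φ := φ) hB).eq]
      rw [isConj_iff]
      refine ⟨gx Γ φ ((ψ ^ d).symm y.1, y.2), ?_⟩
      rw [hU1', hzinv]
      group

end main

section automaton

variable [DecidableEq V] (Γ : SimpleGraph V) [DecidableRel Γ.Adj] (φ : Equiv.Perm V)

/-- states of the automaton for reduced words; `none` is the fail state -/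
abbrev Q (V : Type) : Type := Option (V → Option Bool)

/-- one step -/
def qStep (q : Q V) (x : V × Bool) : Q V :=
  match q with
  | none => none
  | some f => if f x.1 = some (!x.2) then none else
      some fun w => if Γ.Adj x.1 w then f w else if w = x.1 then some x.2 else none

/-- run of the automaton -/
def qRun (q : Q V) (l : List (V × Bool)) : Q V := l.foldl (qStep Γ) q

lemma qRun_append (q : Q V) (l l' : List (V × Bool)) :
    qRun Γ q (l ++ l') = qRun Γ (qRun Γ q l) l' := by
  unfold qRun; rw [List.foldl_append]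

/-- initial state -/
def q0 : Q V := some fun _ => none

/-- top bead -/
def topOf (l : List (Option Bool)) : Option Bool := l.head?.join

lemma topOf_iff (l : List (Option Bool)) (e : Bool) :
    topOf l = some e ↔ l.head? = some (some e) := by
  unfold topOf
  rcases l.head? with _ | ⟨_ | b⟩ <;> simp

lemma qRun_seq (W : ℕ → V × Bool) (n : ℕ) :
    (AP Γ W n → qRun Γ q0 ((List.range n).map W) = some fun v => topOf ((pilS Γ W n).1 v)) ∧
    (¬ AP Γ W n → qRun Γ q0 ((List.range n).map W) = none) := by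
  induction n with
  | zero =>
    constructor
    · intro _; rfl
    · intro h; exact absurd (fun k hk => by omega) h
  | succ n ih =>
    rw [List.range_succ, List.map_append, qRun_append, List.map_singleton]
    by_cases hn : AP Γ W n
    · rw [ih.1 hn]
      constructor
      · intro h
        have h1 := h n (Nat.lt_succ_self n)
        show qStep Γ (some fun v => topOf ((pilS Γ W n).1 v)) (W n) = _
        unfold qStep
        simp only
        rw [if_neg (fun h2 => h1 ((topOf_iff _ _).1 h2))]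
        congr 1
        funext v
        rw [pilS_push h]
        by_cases h2 : Γ.Adj (W n).1 v
        · simp [push, h2]
        · by_cases h3 : v = (W n).1
          · simp [push, h3, topOf]
          · simp [push, h2, h3, topOf]
      · intro h
        show qStep Γ (some fun v => topOf ((pilS Γ W n).1 v)) (W n) = _
        unfold qStep
        simp only
        rw [if_pos]
        rw [topOf_iff]
        by_contra h2
        apply h
        intro k hk
        rcases Nat.lt_succ_iff_lt_or_eq.1 hk with h3 | rfl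
        · exact hn k h3
        · exact h2
    · rw [ih.2 hn]
      constructor
      · intro h; exact absurd (AP_mono h (Nat.le_succ n)) hn
      · intro _; rfl

/-- product of twisted copies -/
def cop (ψ : Equiv.Perm V) (U : List (V × Bool)) : ℕ → List (V × Bool)
  | 0 => []
  | N + 1 => cop ψ U N ++ mapX (ψ ^ N) U

variable {Γ φ}

omit [DecidableEq V] [DecidableRel Γ.Adj] in
lemma exists_seq (ψ : Equiv.Perm V) (U : List (V × Bool)) (hU : 0 < U.length) :
    ∃ W : ℕ → V × Bool, (∀ k, W (k + U.length) = (ψ (W k).1, (W k).2)) ∧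
      (List.range U.length).map W = U := by
  refine ⟨fun k => ((ψ ^ (k / U.length)) (U[k % U.length]'(Nat.mod_lt _ hU)).1,
    (U[k % U.length]'(Nat.mod_lt _ hU)).2), ?_, ?_⟩
  · intro k
    have h1 : (k + U.length) / U.length = k / U.length + 1 := Nat.add_div_right k hU
    simp only [h1, Nat.add_mod_right, pow_succ', Equiv.Perm.mul_apply]
  · apply List.ext_getElem
    · simp
    · intro i h1 h2
      simp only [List.getElem_map, List.getElem_range, Nat.div_eq_of_lt h2, Nat.mod_eq_of_lt h2,
        pow_zero, Equiv.Perm.one_apply]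

omit [DecidableEq V] [DecidableRel Γ.Adj] in
lemma cop_eq {W : ℕ → V × Bool} {ψ : Equiv.Perm V} {U : List (V × Bool)}
    (hW : ∀ k, W (k + U.length) = (ψ (W k).1, (W k).2))
    (hU : (List.range U.length).map W = U) (N : ℕ) :
    cop ψ U N = (List.range (N * U.length)).map W := by
  induction N with
  | zero => simp [cop]
  | succ N ih =>
    rw [cop, ih, range_map_mul hW hU]

omit [DecidableEq V] [DecidableRel Γ.Adj] in
lemma adj_zpow (hφ : ∀ u v, Γ.Adj (φ u) (φ v) ↔ Γ.Adj u v) (k : ℤ) (u v : V) :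
    Γ.Adj ((φ ^ k) u) ((φ ^ k) v) ↔ Γ.Adj u v := by
  obtain ⟨n, rfl | rfl⟩ := Int.eq_nat_or_neg k
  · rw [zpow_natCast]; exact adj_pow hφ n u v
  · rw [zpow_neg, zpow_natCast, ← adj_pow hφ n]
    show Γ.Adj ((φ ^ n) ((φ ^ n).symm u)) ((φ ^ n) ((φ ^ n).symm v)) ↔ _
    rw [Equiv.apply_symm_apply, Equiv.apply_symm_apply]

/-- Characterisation of conjugacy geodesics. -/
lemma char [Fintype V] (hφ : ∀ u v, Γ.Adj (φ u) (φ v) ↔ Γ.Adj u v)
    (w : List (Option V × Bool)) :
    w ∈ ConjGeo Γ φ ↔ nt w = nrm φ (φ ^ (-(st φ w).2)) ∧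
      qRun Γ q0 (cop (φ ^ (-(st φ w).2)) (st φ w).1 (orderOf φ + 1)) ≠ none := by
  have hm : (φ ^ (-(st φ w).2)) ^ orderOf φ = 1 := by
    rw [← zpow_natCast, ← zpow_mul, mul_comm, zpow_mul, zpow_natCast, pow_orderOf_eq_one,
      one_zpow]
  have hm0 : 0 < orderOf φ := orderOf_pos φ
  have hψ := adj_zpow hφ (-(st φ w).2)
  rcases Nat.eq_zero_or_pos (st φ w).1.length with h0 | h0
  · -- no vertex letters
    have hU : (st φ w).1 = [] := List.length_eq_zero_iff.1 h0
    have hcop : ∀ (ψ : Equiv.Perm V) N, cop ψ [] N = [] := by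
      intro ψ N
      induction N with
      | zero => rfl
      | succ N ih => rw [cop, ih]; rfl
    constructor
    · intro h
      refine ⟨nt_eq Γ φ h, ?_⟩
      rw [hU, hcop]
      simp [qRun, q0]
    · rintro ⟨h1, _⟩
      rw [mem_ConjGeo]
      intro w' hw'
      have h2 := length_st φ w
      have h3 := length_st φ w'
      have h4 := (nrm_le φ (st φ w').2).trans (natAbs_st φ w')
      rw [← conj_exp Γ φ hw', ← h1] at h4
      omega
  · obtain ⟨W, hW, hWU⟩ := exists_seq (φ ^ (-(st φ w).2)) (st φ w).1 h0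
    rw [cop_eq hW hWU]
    constructor
    · intro h
      refine ⟨nt_eq Γ φ h, ?_⟩
      intro hnone
      have hnAP : ¬ AP Γ W ((orderOf φ + 1) * (st φ w).1.length) := by
        intro hAP
        rw [(qRun_seq Γ W _).1 hAP] at hnone
        exact absurd hnone (by simp)
      rw [AP_iff, not_not] at hnAP
      obtain ⟨w', hw', hlt⟩ := reduce hW hWU hψ h0 hnAP
      have := (mem_ConjGeo Γ φ w).1 h w' hw'
      omega
    · rintro ⟨h1, h5⟩
      rw [mem_ConjGeo]
      intro w' hw'
      have h2 := length_st φ w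
      have h3 := length_st φ w'
      have h4 := (nrm_le φ (st φ w').2).trans (natAbs_st φ w')
      rw [← conj_exp Γ φ hw', ← h1] at h4
      have hnb : ∀ n, ¬ Bad Γ W n := by
        intro n hbad
        have h6 := bad_bound hψ hW h0 hm0 hm hbad
        have h7 : ¬ AP Γ W ((orderOf φ + 1) * (st φ w).1.length) := by
          rw [AP_iff, not_not]; exact h6
        exact h5 ((qRun_seq Γ W _).2 h7)
      have h8 := lower hφ hW hWU hnb hw'
      omega

lemma regular_of_fold {α S : Type} [Finite S] (step : S → α → S) (s₀ : S) (F : Set S)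
    (L : Language α) (h : ∀ w : List α, w ∈ L ↔ w.foldl step s₀ ∈ F) : L.IsRegular := by
  refine ⟨S, Fintype.ofFinite S, ⟨step, s₀, F⟩, ?_⟩
  ext w
  rw [h]
  rfl

variable (Γ φ)

/-- the states of the final automaton -/
abbrev S (φ : Equiv.Perm V) : Type :=
  Equiv.Perm V × Fin (orderOf φ + 2) × (Equiv.Perm V → Q V → Q V)

/-- the transitions of the final automaton -/
noncomputable def fStep (q : S φ) (x : Option V × Bool) : S φ :=
  match x with
  | (some v, e) => (q.1, q.2.1, fun π r => qStep Γ (q.2.2 π r) (π (q.1 v), e))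
  | (none, e) => (q.1 * (if e then φ⁻¹ else φ),
      ⟨min (q.2.1 + 1) (orderOf φ + 1), by omega⟩, q.2.2)

/-- the initial state -/
noncomputable def fStart : S φ := (1, ⟨0, by omega⟩, fun _ r => r)

lemma foldl_eq (w : List (Option V × Bool)) :
    w.foldl (fStep Γ φ) (fStart φ) = (φ ^ (-(st φ w).2),
      ⟨min (nt w) (orderOf φ + 1), by omega⟩, fun π r => qRun Γ r (mapX π (st φ w).1)) := by
  induction w using List.reverseRecOn with
  | nil =>
    show fStart φ = (φ ^ (-(0 : ℤ)), _, fun π r => qRun Γ r (mapX π []))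
    rfl
  | append_singleton w x ih =>
    have hst : st φ (w ++ [x]) = stStep φ (st φ w) x := by
      unfold st; rw [List.foldl_append]; rfl
    have hnt : nt (w ++ [x]) = nt w + if x.1.isNone then 1 else 0 := by
      unfold nt
      rw [List.countP_append, List.countP_singleton]
    rw [List.foldl_append, ih]
    rcases x with ⟨_ | v, e⟩
    · have h1 : (st φ (w ++ [(none, e)])).1 = (st φ w).1 := by rw [hst]; rfl
      have h2 : (st φ (w ++ [(none, e)])).2 = (st φ w).2 + if e then 1 else -1 := by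
        rw [hst]; rfl
      show fStep Γ φ _ (none, e) = _
      refine Prod.ext ?_ (Prod.ext ?_ ?_)
      · show φ ^ (-(st φ w).2) * (if e then φ⁻¹ else φ) = φ ^ (-(st φ (w ++ [(none, e)])).2)
        rw [h2, neg_add, zpow_add]
        cases e <;> simp
      · apply Fin.ext
        show min (min (nt w) (orderOf φ + 1) + 1) (orderOf φ + 1) =
          min (nt (w ++ [(none, e)])) (orderOf φ + 1)
        rw [hnt]
        simp only [Option.isNone_none, if_true]
        omega
      · show (fun π r => qRun Γ r (mapX π (st φ w).1)) = _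
        rw [h1]
    · have h1 : (st φ (w ++ [(some v, e)])).1 =
          (st φ w).1 ++ [((φ ^ (-(st φ w).2)) v, e)] := by rw [hst]; rfl
      have h2 : (st φ (w ++ [(some v, e)])).2 = (st φ w).2 := by rw [hst]; rfl
      show fStep Γ φ _ (some v, e) = _
      refine Prod.ext ?_ (Prod.ext ?_ ?_)
      · show φ ^ (-(st φ w).2) = φ ^ (-(st φ (w ++ [(some v, e)])).2)
        rw [h2]
      · apply Fin.ext
        show min (nt w) (orderOf φ + 1) = min (nt (w ++ [(some v, e)])) (orderOf φ + 1)
        rw [hnt]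
        simp
      · show (fun π r => qStep Γ (qRun Γ r (mapX π (st φ w).1)) (π ((φ ^ (-(st φ w).2)) v), e)) = _
        funext π r
        show _ = qRun Γ r (mapX π (st φ (w ++ [(some v, e)])).1)
        rw [h1]
        have h3 : mapX π ((st φ w).1 ++ [((φ ^ (-(st φ w).2)) v, e)]) =
            mapX π (st φ w).1 ++ [(π ((φ ^ (-(st φ w).2)) v), e)] := by
          unfold mapX; rw [List.map_append]; rfl
        rw [h3, qRun_append]
        rfl

/-- acceptance -/
noncomputable def comp (q : S φ) : ℕ → Q V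
  | 0 => q0
  | N + 1 => q.2.2 (q.1 ^ N) (comp q N)

lemma comp_eq (w : List (Option V × Bool)) (N : ℕ) :
    comp φ (w.foldl (fStep Γ φ) (fStart φ)) N =
      qRun Γ q0 (cop (φ ^ (-(st φ w).2)) (st φ w).1 N) := by
  induction N with
  | zero => rfl
  | succ N ih =>
    rw [comp, ih, cop, qRun_append, foldl_eq]

omit [DecidableEq V] in
lemma nrm_le_order [Fintype V] (s : ℤ) : nrm φ (φ ^ (-s)) ≤ orderOf φ := by
  have hm0 : 0 < orderOf φ := orderOf_pos φ
  have h1 : φ ^ (-s) = φ ^ ((-s) % (orderOf φ : ℤ)) := (zpow_mod_orderOf φ (-s)).symm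
  have h2 : 0 ≤ (-s) % (orderOf φ : ℤ) := Int.emod_nonneg _ (by omega)
  have h3 : (-s) % (orderOf φ : ℤ) < orderOf φ := Int.emod_lt_of_pos _ (by omega)
  obtain ⟨k, hk⟩ := Int.eq_ofNat_of_zero_le h2
  have h4 : nrm φ (φ ^ (-s)) ≤ k := by
    apply Nat.sInf_le
    left
    conv_lhs => rw [h1, hk]
    rw [zpow_natCast]
  omega

end automaton

/-- For every finite graph and every graph automorphism the language of conjugacy geodesics of
the virtual RAAG is regular. -/
theorem result (V : Type) [Finite V] (Γ : SimpleGraph V) (φ : Γ ≃g Γ) :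
    (ConjGeo Γ φ.toEquiv).IsRegular := by
  classical
  have : Fintype V := Fintype.ofFinite V
  have hφ : ∀ u v, Γ.Adj (φ.toEquiv u) (φ.toEquiv v) ↔ Γ.Adj u v := fun u v => φ.map_rel_iff
  refine regular_of_fold (S := S φ.toEquiv) (fStep Γ φ.toEquiv) (fStart φ.toEquiv)
    {q | (q.2.1 : ℕ) = nrm φ.toEquiv q.1 ∧ comp φ.toEquiv q (orderOf φ.toEquiv + 1) ≠ none} _ ?_
  intro w
  rw [char hφ]
  show _ ↔ (((w.foldl (fStep Γ φ.toEquiv) (fStart φ.toEquiv)).2.1 : ℕ) =
    nrm φ.toEquiv (w.foldl (fStep Γ φ.toEquiv) (fStart φ.toEquiv)).1 ∧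
    comp φ.toEquiv (w.foldl (fStep Γ φ.toEquiv) (fStart φ.toEquiv)) (orderOf φ.toEquiv + 1) ≠ none)
  rw [comp_eq, foldl_eq]
  have h1 := nrm_le_order φ.toEquiv (st φ.toEquiv w).2
  constructor
  · rintro ⟨h2, h3⟩
    refine ⟨?_, h3⟩
    show min (nt w) (orderOf φ.toEquiv + 1) =
      nrm φ.toEquiv (φ.toEquiv ^ (-(st φ.toEquiv w).2))
    omega
  · rintro ⟨h2, h3⟩
    refine ⟨?_, h3⟩
    have h4 : min (nt w) (orderOf φ.toEquiv + 1) =
      nrm φ.toEquiv (φ.toEquiv ^ (-(st φ.toEquiv w).2)) := h2
    omega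

end Pool.Agent.Results.MP_7325c9_al.Twisted
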